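import Pool.Agent.Lib.helper10.RedBlue
import Pool.Agent.Lib.helper10.ChipRed
import Pool.Agent.Lib.helper10.Polyh

namespace Pool.Agent.Results.MP_148663_lc.CoNPHard

open Pool.Agent.Cx Pool.Agent.Polyh Finset

open Classical in
/-- the polyhedron `A x ≤ b`, `x ≥ 0` -/
def poly (n : ℕ) (A : List (List Bool)) (b : List ℕ) : Set (Fin n → ℝ) :=
  {x | (∀ j, 0 ≤ x j) ∧ ∀ i < A.length, ∑ j : Fin n, (if Entry A i j then x j else 0) ≤ b.getD i 0}

/-- at every vertex the primitive facet normals form a square matrix of determinant `1` or `-1` -/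
def Unimod (I : ℕ × List (List Bool) × List ℕ) : Prop :=
  (∀ r ∈ I.2.1, r.length = I.1) ∧ I.2.2.length = I.2.1.length ∧ (∀ t ∈ I.2.2, 0 < t) ∧
    ∀ u ∈ (poly I.1 I.2.1 I.2.2).extremePoints ℝ, ∃ r : Matrix (Fin I.1) (Fin I.1) ℤ,
      Set.range r = {c | FacetNormal (poly I.1 I.2.1 I.2.2) u c} ∧ |r.det| = 1

open Pool.Agent.Chip

def aa (m N : ℕ) (inc : ℕ → ℕ → Bool) (i j : ℕ) : Prop :=
  i = j / (N + 1) ∨ (i = m + j % (N + 1) ∧ inc (j / (N + 1)) (j % (N + 1)) = true)

instance (m N : ℕ) (inc : ℕ → ℕ → Bool) (i j : ℕ) : Decidable (aa m N inc i j) := by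
  unfold aa; infer_instance

def bb (m N k i : ℕ) : ℕ := if i < m then N + 1 else if i < m + N then 1 else k * (N + 1) - N

def build (m N k : ℕ) (inc : ℕ → ℕ → Bool) : ℕ × List (List Bool) × List ℕ :=
  ((N + 1) * m, (List.range (m + N + 1)).map fun i => (List.range ((N + 1) * m)).map fun j =>
    decide (aa m N inc i j), (List.range (m + N + 1)).map (bb m N k))

def rho (m N : ℕ) (inc : ℕ → ℕ → Bool) :
    Fin ((N + 1) * m) ⊕ Fin (m + N + 1) → Fin ((N + 1) * m) → ℤ
  | .inl j => fun j' => if j' = j then -1 else 0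
  | .inr i => fun j => if aa m N inc i j then 1 else 0

def beta (m N k : ℕ) : Fin ((N + 1) * m) ⊕ Fin (m + N + 1) → ℝ
  | .inl _ => 0
  | .inr i => bb m N k i

section
variable {m N k : ℕ} {inc : ℕ → ℕ → Bool}

lemma dot_inl (j : Fin ((N + 1) * m)) (x) : dot (rho m N inc (.inl j)) x = - x j := by
  simp [dot, rho]

lemma dot_inr (i : Fin (m + N + 1)) (x) :
    dot (rho m N inc (.inr i)) x = ∑ j : Fin ((N + 1) * m), if aa m N inc i j then x j else 0 := by
  simp [dot, rho]

lemma mem_poly (x) : x ∈ poly _ (build m N k inc).2.1 (build m N k inc).2.2 ↔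
    ∀ κ, dot (rho m N inc κ) x ≤ beta m N k κ := by
  simp only [poly, build, Set.mem_ofPred_eq, Sum.forall, dot_inl, dot_inr, beta, Left.neg_nonpos_iff,
    List.length_map, List.length_range, Fin.forall_iff]
  refine and_congr_right fun _ => forall₂_congr fun i hi => ?_
  rw [sum_congr rfl (g := fun j : Fin _ => if aa m N inc i j then x j else 0) fun j _ => by
    by_cases c : aa m N inc i j <;> simp [Entry, hi, c]]
  simp [hi]

lemma lr (j : Fin ((N + 1) * m)) : j.1 / (N + 1) < m ∧ j.1 % (N + 1) ≤ N :=
  ⟨Nat.div_lt_of_lt_mul j.2, Nat.le_of_lt_succ (Nat.mod_lt _ (by omega))⟩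

lemma colsum {K : Type} [AddCommMonoid K] (f : ℕ → K) (j : Fin ((N + 1) * m)) :
    ∑ i : Fin (m + N + 1), (if aa m N inc i j then f i else 0) = f (j / (N + 1)) +
      if inc (j / (N + 1)) (j % (N + 1)) = true then f (m + j % (N + 1)) else 0 := by
  have := lr j
  rw [Fin.sum_univ_eq_sum_range fun i => if aa m N inc i j then f i else 0,
    sum_eq_add (j / (N + 1)) (m + j % (N + 1)) (by omega) (fun c _ h => if_neg (by
      unfold aa; tauto)) (by simp; omega) (by simp; omega),
    if_pos (show aa m N inc _ j from Or.inl rfl)]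
  exact congrArg _ (if_congr ⟨fun h => (h.resolve_left (by omega)).2, fun h => Or.inr ⟨rfl, h⟩⟩ rfl rfl)

lemma rowsum (g : ℕ → ℕ → ℝ) (i : Fin (m + N + 1)) :
    dot (rho m N inc (.inr i)) (fun j => g (j / (N + 1)) (j % (N + 1))) =
      if i.1 < m then ∑ t ∈ range (N + 1), g i t else
      ∑ S ∈ range m, if inc S (i - m) = true then g S (i - m) else 0 := by
  rw [dot_inr, Fin.sum_univ_eq_sum_range fun j => if aa m N inc i j then g (j / (N + 1)) (j % (N + 1))
    else 0, sum_mul_range, sum_congr rfl (g := fun S => ∑ t ∈ range (N + 1),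
      if i.1 = S ∨ (i.1 = m + t ∧ inc S t = true) then g S t else 0) fun S _ => sum_congr rfl fun t ht => by
      simp only [aa, (divmod (mem_range.1 ht)).1, (divmod (mem_range.1 ht)).2]]
  split_ifs with h
  · rw [sum_eq_single i.1 (fun S _ e => sum_eq_zero fun t _ => if_neg (by omega)) (by simp [h])]
    simp
  · refine sum_congr rfl fun S hS => ?_
    have := mem_range.1 hS
    rw [sum_eq_single (i.1 - m) (fun t _ e => if_neg (by omega)) (by simp; omega)]
    exact if_congr ⟨fun h => (h.resolve_left (by omega)).2, fun h => Or.inr ⟨by omega, h⟩⟩ rfl rfl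

variable (h1 : ∀ S, inc S N = true) (h2 : ∀ t < N, ∃ S < m, inc S t = true) (h3 : 2 ≤ k) (h4 : k < m)
  (h5 : 0 < N)
include h1 h2 h3 h4 h5

lemma pts (κ) : ∃ y d, (∀ κ, dot (rho m N inc κ) y ≤ beta m N k κ) ∧
    dot (rho m N inc κ) y = beta m N k κ ∧ dot (rho m N inc κ) d = 0 ∧
    ∀ κ', κ' ≠ κ → dot (rho m N inc κ') y = beta m N k κ' → dot (rho m N inc κ') d < 0 := by
  have b1 : N + 1 < k * (N + 1) - N := by
    have : 2 * (N + 1) ≤ k * (N + 1) := Nat.mul_le_mul_right _ h3
    omega
  have b0 : ∀ i, (0 : ℝ) < bb m N k i := fun i => by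
    unfold bb; split_ifs <;> exact_mod_cast (by omega)
  rcases κ with j | i
  · refine ⟨0, fun j' => if j' = j then 0 else 1, ?_, by simp [dot_inl, beta], by simp [dot_inl], ?_⟩
    · rintro (j | i) <;> simp [dot, beta, (b0 _).le]
    · rintro (j' | i) h e
      · rw [dot_inl, if_neg (by simpa using h)]; simp
      · exact absurd (by simpa [dot, beta] using e.symm) (b0 i).ne'
  obtain ⟨g, g1, g2, g3⟩ : ∃ g : ℕ → ℕ → ℝ, (∀ S t, 0 ≤ g S t) ∧
      dot (rho m N inc (.inr i)) (fun j => g (j / (N + 1)) (j % (N + 1))) = bb m N k i ∧ ∀ i', i' ≠ i →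
      dot (rho m N inc (.inr i')) (fun j => g (j / (N + 1)) (j % (N + 1))) < bb m N k i' := by
    simp only [rowsum, ne_eq, Fin.ext_iff]
    by_cases c1 : i.1 < m
    · refine ⟨fun S t => if S = i.1 ∧ t = N then N + 1 else 0, fun _ _ => by positivity,
        by simp [c1, bb], fun i' h => ?_⟩
      split_ifs with c
      · simpa [h] using b0 i'
      · by_cases c' : i'.1 - m = N
        · simp only [c', h1, bb, if_neg c, if_neg (show ¬ i'.1 < m + N by omega)]
          simp only [if_true, and_true, sum_ite_eq', mem_range, c1]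
          exact_mod_cast b1
        · simpa [c'] using b0 i'
    by_cases c2 : i.1 < m + N
    · obtain ⟨S0, s1, s2⟩ := h2 (i - m) (by omega)
      refine ⟨fun S t => if S = S0 ∧ t = i.1 - m then 1 else 0, fun _ _ => by positivity,
        ?_, fun i' h => ?_⟩
      · rw [if_neg c1, sum_eq_single S0 (fun S _ e => by simp [e]) (by simp [s1])]
        simp [s2, bb, c1, c2]
      split_ifs with c
      · by_cases c' : i'.1 = S0
        · simp only [c', true_and, sum_ite_eq', bb, s1, if_true]
          split_ifs <;> exact_mod_cast (by omega)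
        · simpa [c'] using b0 i'
      · simpa [show i'.1 - m ≠ i.1 - m by omega] using b0 i'
    · have hm : (0 : ℝ) < m := by exact_mod_cast (by omega)
      refine ⟨fun S t => if t = N then bb m N k i / m else 0, fun _ _ => by
        have := b0 i; positivity, ?_, fun i' h => ?_⟩
      · simp only [c1, show i.1 - m = N by omega, h1, if_true, if_false, sum_const, card_range,
          nsmul_eq_mul]
        field_simp
      by_cases c : i'.1 < m
      · simp only [sum_ite_eq', mem_range, Nat.lt_succ_self, if_true, bb, c, c1, c2, if_false]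
        rw [div_lt_iff₀ hm]
        have : k * (N + 1) - N < (N + 1) * m := by
          have : k * (N + 1) < m * (N + 1) := Nat.mul_lt_mul_of_pos_right h4 (by omega)
          rw [mul_comm _ m]; omega
        exact_mod_cast this
      · simpa [c, show i'.1 - m ≠ N by omega] using b0 i'
  refine ⟨_, (fun _ => 1) - (dot (rho m N inc (.inr i)) (fun _ => 1) / bb m N k i) •
    fun j : Fin _ => g (j / (N + 1)) (j % (N + 1)), ?_, g2, ?_, ?_⟩
  · rintro (j | i')
    · simp [dot_inl, beta, g1]
    · by_cases c : i' = i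
      · rw [c]; exact g2.le
      · exact (g3 i' c).le
  · rw [dot_sub, dot_smul, g2, div_mul_cancel₀ _ (b0 i).ne', sub_self]
  · rintro (j | i') h e
    · simp only [dot_inl, beta, neg_eq_zero] at e
      simp [dot_inl, e]
    · exact absurd e (g3 i' (by simpa using h)).ne

lemma facets {u} (hu : u ∈ poly _ (build m N k inc).2.1 (build m N k inc).2.2) :
    {c | FacetNormal (poly _ (build m N k inc).2.1 (build m N k inc).2.2) u c} =
    {c | ∃ κ, dot (rho m N inc κ) u = beta m N k κ ∧ c = rho m N inc κ} := by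
  ext c
  refine ⟨row_of_facet mem_poly (fun κ j => ?_) hu, ?_⟩
  · cases κ <;> simp only [rho] <;> split_ifs <;> simp
  · rintro ⟨κ, e, rfl⟩
    obtain ⟨y, d, a1, a2, a3, a4⟩ := pts h1 h2 h3 h4 h5 κ
    refine facet_of_point mem_poly ?_ ((mem_poly _).2 a1) a2 a3 a4 e
    rcases κ with j | i
    · exact gcd_one (j := j) (by simp [rho])
    · by_contra hc
      have : 2 * (N + 1) ≤ k * (N + 1) := Nat.mul_le_mul_right _ h3
      rw [dot_inr, sum_eq_zero fun j _ => if_neg fun h => hc (gcd_one (j := j) (by simp [rho, h]))] at a2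
      simp only [beta, bb] at a2
      split_ifs at a2 <;> norm_cast at a2; omega

lemma gen : (∃ X ⊆ range m, X.card = k ∧ ∀ t < N, ∃ S ∈ X, inc S t = true) ↔
    ¬ Unimod (build m N k inc) := by
  classical
  have b1 : 2 * (N + 1) ≤ k * (N + 1) := Nat.mul_le_mul_right _ h3
  have b2 : ((k * (N + 1) - N : ℕ) : ℝ) = k * (N + 1) - N := by rw [Nat.cast_sub (by omega)]; simp
  constructor
  · rintro ⟨X, x1, x2, x3⟩ ⟨-, -, -, h⟩
    choose! σ s1 s2 using x3
    let cn : ℕ → ℝ := fun S => ∑ t ∈ range N, if σ t = S then 1 else 0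
    let g : ℕ → ℕ → ℝ := fun S t => if t = N then (if S ∈ X then N + 1 - cn S else 0) else
      if σ t = S then 1 else 0
    have c1 : ∀ S, cn S ≤ N := fun S => (sum_le_card_nsmul _ _ 1 fun _ _ => by
      split_ifs <;> simp).trans (by simp)
    have r1 : ∀ i : Fin (m + N + 1), dot (rho m N inc (.inr i)) (fun j => g (j / (N + 1)) (j % (N + 1))) =
        if i.1 < m ∧ i.1 ∉ X then 0 else (bb m N k i : ℝ) := fun i => by
      rw [rowsum]
      by_cases c : i.1 < m
      · rw [if_pos c, sum_range_succ, sum_congr rfl fun t ht => if_neg (mem_range.1 ht).ne]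
        by_cases c' : i.1 ∈ X
        · simp [g, cn, c, c', bb]
        · simp only [g, c, c', if_true, if_false, not_false_eq_true, and_true, add_zero]
          exact sum_eq_zero fun t ht => if_neg fun e => c' (by rw [← e]; exact s1 t (mem_range.1 ht))
      by_cases c' : i.1 - m = N
      · simp only [c, c', h1, g, if_true, if_false, false_and, bb, show ¬ i.1 < m + N by omega, b2]
        rw [← sum_filter, filter_mem_eq_inter, inter_eq_right.2 x1, sum_sub_distrib, sum_comm,
          sum_congr (s₁ := range N) rfl (g := fun _ => 1) fun t ht => by simp [s1 t (mem_range.1 ht)]]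
        simp [x2]; ring
      · have a : i.1 - m < N := by omega
        rw [if_neg c, sum_eq_single (σ (i - m)) (fun S _ e => by simp [g, c', e.symm])
          fun e => absurd (x1 (s1 _ a)) e]
        simp [g, c, c', s2 _ a, bb, show i.1 < m + N by omega]
    have key : ∀ d, (∀ κ, κ ≠ .inr ⟨m + N, by omega⟩ → dot (rho m N inc κ) (fun j => g (j / (N + 1))
        (j % (N + 1))) = beta m N k κ → dot (rho m N inc κ) d = 0) → d = 0 := by
      intro d hd
      have z1 : ∀ j : Fin ((N + 1) * m), g (j / (N + 1)) (j % (N + 1)) = 0 → d j = 0 := fun j e => by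
        simpa [dot_inl] using hd (.inl j) (by simp) (by simp [dot_inl, beta, e])
      have inj : ∀ j j' : Fin ((N + 1) * m), j.1 / (N + 1) = j' / (N + 1) →
          j.1 % (N + 1) = j' % (N + 1) → j = j' := fun j j' a b => Fin.ext (by
        rw [← Nat.div_add_mod j.1 (N + 1), a, b, Nat.div_add_mod])
      have z2 : ∀ j : Fin ((N + 1) * m), j.1 % (N + 1) ≠ N → d j = 0 := fun j e => by
        have l := lr j
        by_cases c : σ (j % (N + 1)) = j / (N + 1)
        swap
        · exact z1 j (by simp [g, e, c])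
        have := hd (.inr ⟨m + j % (N + 1), by omega⟩) (by simpa using e) (by rw [r1]; simp [beta])
        rwa [dot_inr, sum_eq_single j (fun j' _ e' => ?_) (by simp),
          if_pos (show aa m N inc _ j from Or.inr ⟨rfl, c ▸ s2 _ (by omega)⟩)] at this
        split_ifs with c'
        · have l' := lr j'
          have a := (c'.resolve_left (by simp only; omega)).1
          simp only [Nat.add_left_cancel_iff] at a
          exact z1 j' (by
            simp only [g, ← a, e, if_false, c]; exact if_neg fun e => e' (inj _ _ e.symm a.symm))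
        · rfl
      ext j
      by_cases e : j.1 % (N + 1) = N
      swap
      · exact z2 j e
      have l := lr j
      by_cases c : j.1 / (N + 1) ∈ X
      swap
      · exact z1 j (by simp [g, e, c])
      have := hd (.inr ⟨j / (N + 1), by omega⟩) (by simp; omega) (by rw [r1]; simp [beta, c])
      rwa [dot_inr, sum_eq_single j (fun j' _ e' => ?_) (by simp),
        if_pos (show aa m N inc _ j from Or.inl rfl)] at this
      split_ifs with c'
      · have a := c'.resolve_right (by simp only; omega)
        exact z2 j' fun e'' => e' (inj _ _ a.symm (e''.trans e.symm))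
      · rfl
    have u1 := (mem_poly (m := m) (N := N) (k := k) (inc := inc) fun j => g (j.1 / (N + 1)) (j.1 % (N + 1))).2 (by
      rintro (j | i)
      · have := c1 (j.1 / (N + 1))
        rw [dot_inl]
        simp only [beta, g]; split_ifs <;> linarith
      · rw [r1]; split_ifs <;> simp [beta])
    obtain ⟨r, a1, a2⟩ : ∃ r : Matrix (Fin ((N + 1) * m)) (Fin ((N + 1) * m)) ℤ,
        Set.range r = {c | FacetNormal _ _ c} ∧ |r.det| = 1 :=
      h _ ((extreme_iff mem_poly).2 ⟨u1, fun d hd => key d fun κ _ => hd κ⟩)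
    erw [facets h1 h2 h3 h4 h5 u1] at a1
    obtain ⟨x, hx⟩ := exists_sol a2 fun i => if r i = rho m N inc (.inr ⟨m + N, by omega⟩) then 1 else 0
    have t1 : dot (rho m N inc (.inr ⟨m + N, by omega⟩)) (fun j => g (j / (N + 1)) (j % (N + 1))) =
        beta m N k (.inr ⟨m + N, by omega⟩) := by rw [r1]; simp [beta]
    obtain rfl := key x fun κ e e' => by
      obtain ⟨i, hi⟩ : rho m N inc κ ∈ Set.range r := a1 ▸ ⟨κ, e', rfl⟩
      rw [← hi, hx, if_neg fun c => ?_]
      obtain ⟨y, d, -, p2, p3, p4⟩ := pts h1 h2 h3 h4 h5 (.inr ⟨m + N, by omega⟩)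
      rw [hi] at c
      exact (p4 κ e (by rw [← e', c, p2, t1])).ne (c ▸ p3)
    obtain ⟨i, hi⟩ : rho m N inc (.inr ⟨m + N, by omega⟩) ∈ Set.range r := by
      rw [a1]; exact ⟨_, t1, rfl⟩
    simpa [hi, dot] using hx i
  · intro h
    by_contra hc
    refine h ⟨by simp [build], by simp [build], ?_, fun (u : Fin ((N + 1) * m) → ℝ) hu => ?_⟩
    · simp only [build, List.mem_map]
      rintro _ ⟨i, -, rfl⟩
      unfold bb; split_ifs <;> omega
    obtain ⟨u1, u2⟩ := (extreme_iff mem_poly).1 hu
    erw [facets h1 h2 h3 h4 h5 u1]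
    refine unimod (n := (N + 1) * m) u2 fun K _ l l1 l2 => ?_
    let f : ℕ → K := fun i => if h : i < m + N + 1 then l (.inr ⟨i, h⟩) else 0
    have f1 : ∀ i : Fin (m + N + 1), f i = l (.inr i) := fun i => dif_pos i.2
    have l3 : ∀ j : Fin ((N + 1) * m), l (.inl j) = f (j / (N + 1)) +
        if inc (j / (N + 1)) (j % (N + 1)) = true then f (m + j % (N + 1)) else 0 := fun j => by
      have := l2 j
      rw [Fintype.sum_sum_type, sum_eq_single j (fun j' _ e => by simp [rho, e.symm]) (by simp)] at this
      rw [← colsum f j]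
      simp only [rho, if_true, Int.cast_ite, mul_ite] at this
      simpa [f1, neg_add_eq_zero] using this
    suffices ∀ i, f i = 0 by
      rintro (j | i)
      · simp [l3, this]
      · rw [← f1, this]
    intro i0
    by_contra f0
    let μ : ℕ → K := fun i => if i < m then f i else - f i
    have m0 : μ i0 ≠ 0 := by simp only [μ]; split_ifs <;> simpa
    have w1 : ∀ i : Fin (m + N + 1), μ i = μ i0 → dot (rho m N inc (.inr i)) u = bb m N k i := by
      intro i e
      by_contra c
      exact m0 (by rw [← e]; simp [μ, f1, l1 (.inr i) c])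
    have w2 : ∀ j : Fin ((N + 1) * m), u j ≠ 0 → (μ (j / (N + 1)) = if inc (j / (N + 1)) (j % (N + 1))
        = true then μ (m + j % (N + 1)) else 0) := fun j e => by
      have := l3 j
      rw [l1 _ (by simpa [dot_inl, beta] using e)] at this
      simp only [μ, (lr j).1, if_true, show ¬ m + j.1 % (N + 1) < m by omega, if_false]
      split_ifs at this ⊢
      · exact eq_neg_of_add_eq_zero_left this.symm
      · simpa using this.symm
    let s : ℕ → ℝ := fun i => if μ i = μ i0 then (if i < m then 1 else -1) else 0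
    have w3 : ∑ i ∈ range (m + N + 1), s i * bb m N k i = 0 := by
      rw [← Fin.sum_univ_eq_sum_range fun i => s i * bb m N k i, sum_congr rfl (g := fun i : Fin _ =>
        ∑ j : Fin ((N + 1) * m), if aa m N inc i j then s i * u j else 0) fun i _ => ?_, sum_comm]
      · refine sum_eq_zero fun j _ => ?_
        rw [colsum fun i => s i * u j]
        by_cases e : u j = 0
        · simp [e]
        have := w2 j e
        simp only [s, this, (lr j).1, if_true, show ¬ m + j.1 % (N + 1) < m by omega, if_false]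
        split_ifs with c1 c2 c3 <;> simp
        exact absurd c3.symm m0
      · by_cases e : μ i = μ i0
        · rw [← w1 i e, dot_inr, mul_sum]; simp
        · simp [s, e]
    obtain ⟨X, hX⟩ : ∃ X, X = (range m).filter fun i => μ i = μ i0 := ⟨_, rfl⟩
    obtain ⟨J, hJ⟩ : ∃ J, J = (range N).filter fun t => μ (m + t) = μ i0 := ⟨_, rfl⟩
    have j1 : J.card ≤ N := hJ ▸ (card_filter_le _ _).trans (by simp)
    have w4 : X.card * (N + 1) = J.card + if μ (m + N) = μ i0 then k * (N + 1) - N else 0 := by
      rw [sum_range_succ, sum_range_add, sum_congr rfl (g := fun i => if μ i = μ i0 then (N + 1 : ℝ)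
        else 0) fun i hi => by simp [s, bb, mem_range.1 hi], sum_congr (s₁ := range N) rfl
        (g := fun t => if μ (m + t) = μ i0 then (-1 : ℝ) else 0) fun i hi => by
          simp [s, bb, mem_range.1 hi], ← sum_filter, ← sum_filter, ← hX, ← hJ] at w3
      simp only [s, bb, sum_const, nsmul_eq_mul, show ¬ m + N < m by omega, lt_irrefl, if_false] at w3
      refine Nat.cast_injective (R := ℝ) ?_
      rw [Nat.cast_mul, Nat.cast_add _ 1, Nat.cast_add, Nat.cast_ite, Nat.cast_one, Nat.cast_zero]
      split_ifs at w3 ⊢ <;> linarith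
    split_ifs at w4 with c
    · have x1 : X.card = k := by
        rcases lt_trichotomy X.card k with h | h | h
        · have := Nat.mul_le_mul_right (N + 1) (Nat.succ_le_of_lt h)
          rw [Nat.succ_mul] at this; omega
        · exact h
        · have := Nat.mul_le_mul_right (N + 1) (Nat.succ_le_of_lt h)
          rw [Nat.succ_mul] at this; omega
      have j2 : J = range N := eq_of_subset_of_card_le (hJ ▸ filter_subset _ _) (by
        rw [x1] at w4; rw [card_range]; omega)
      refine hc ⟨X, hX ▸ filter_subset _ _, x1, fun t ht => ?_⟩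
      have a1 : μ (m + t) = μ i0 := (mem_filter.1 (hJ ▸ j2 ▸ mem_range.2 ht : t ∈ filter _ _)).2
      have a2 := w1 ⟨m + t, by omega⟩ a1
      rw [dot_inr] at a2
      obtain ⟨j, -, a3⟩ := exists_ne_zero_of_sum_ne_zero (a2.trans_ne (by simp [bb, ht]))
      rw [ne_eq, ite_eq_right_iff, Classical.not_imp] at a3
      have l := lr j
      obtain ⟨a4, a5⟩ := a3.1.resolve_left (by simp only; omega)
      simp only [Nat.add_left_cancel_iff] at a4
      refine ⟨j / (N + 1), hX ▸ mem_filter.2 ⟨mem_range.2 l.1, ?_⟩, a4 ▸ a5⟩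
      rw [w2 j a3.2, if_pos a5, ← a4, a1]
    · have x1 : X.card = 0 := by
        by_contra h
        have := Nat.mul_le_mul_right (N + 1) (Nat.pos_of_ne_zero h)
        omega
      have j2 : J.card = 0 := by rw [x1] at w4; omega
      rw [card_eq_zero, eq_empty_iff_forall_notMem] at x1 j2
      have i1 : i0 < m + N + 1 := by by_contra h; exact f0 (dif_neg h)
      rcases (by omega : i0 < m ∨ (m ≤ i0 ∧ i0 < m + N) ∨ i0 = m + N) with h | h | h
      · exact x1 i0 (by simp [hX, h])
      · exact j2 (i0 - m) (by simp [hJ, h.1]; omega)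
      · exact c (by rw [h])

end

def incM (M : List (List Bool)) (S t : ℕ) : Bool :=
  decide (t / (M.length + 2) = t % (M.length + 2) ∨ (M.length + 2) * (M.length + 2) ≤ t ∨
    ent M (t / (M.length + 2)) (t % (M.length + 2)) = true ∨ S = t / (M.length + 2) ∨
    S = t % (M.length + 2))

def red (I : List (List Bool) × ℕ) : ℕ × List (List Bool) × List ℕ :=
  build (I.1.length + 2) ((I.1.length + 2) * (I.1.length + 2)) (I.1.length + 2 - I.2) (incM I.1)

lemma red_pt : PT red := by
  unfold red build bb
  refine PT.pair (by fun_prop) (PT.pair (PT.map (PT.map (PP.decide ?_) (by fun_prop)) (by fun_prop))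
    (PT.map (PP.ite (by fun_prop) (by fun_prop) (PP.ite (by fun_prop) (by fun_prop) (by fun_prop)))
    (by fun_prop)))
  simp only [aa, incM, decide_eq_true_eq]; fun_prop

lemma correct (M : List (List Bool)) (k : ℕ) (hM : IsGraph M) (h2 : 2 ≤ k) (hk : k ≤ M.length) :
    HasClq M k ↔ ¬ Unimod (red (M, k)) := by
  obtain ⟨m, hm⟩ : ∃ m, m = M.length + 2 := ⟨_, rfl⟩
  simp only [red]
  rw [← gen (fun S => by simp [incM]) (fun t ht => ⟨t % (M.length + 2), Nat.mod_lt _ (by omega), by
    simp [incM]⟩) (by omega) (by omega) (by positivity)]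
  simp only [incM, decide_eq_true_eq, ← hm]
  constructor
  · rintro ⟨S, s1, s2, s3⟩
    have c : (range m \ S).card = m - k := by
      rw [card_sdiff_of_subset fun u hu => mem_range.2 (by have := s1 u hu; omega), s2, card_range]
    refine ⟨range m \ S, sdiff_subset, c, fun t ht => ?_⟩
    have a1 : t / m < m := Nat.div_lt_of_lt_mul ht
    have a2 : t % m < m := Nat.mod_lt _ (by omega)
    by_cases e1 : t / m ∈ S
    · by_cases e2 : t % m ∈ S
      · obtain ⟨x, hx⟩ := card_pos.1 (show 0 < (range m \ S).card by omega)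
        exact ⟨x, hx, by by_cases e : t / m = t % m <;> simp [e, s3 _ e1 _ e2]⟩
      · exact ⟨t % m, by simp [a2, e2], by simp⟩
    · exact ⟨t / m, by simp [a1, e1], by simp⟩
  · rintro ⟨X, x1, x2, x3⟩
    have c : (range m \ X).card = k := by rw [card_sdiff_of_subset x1, x2, card_range]; omega
    have s3 : ∀ u ∈ range m \ X, ∀ v ∈ range m \ X, u ≠ v → ent M u v = true := by
      intro u hu v hv e
      simp only [mem_sdiff, mem_range] at hu hv
      have : m * u + v < m * m := by nlinarith [hu.1, hv.1]
      obtain ⟨S, a1, a2⟩ := x3 _ this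
      rw [(divmod hv.1).1, (divmod hv.1).2] at a2
      rcases a2 with a | a | a | rfl | rfl
      exacts [absurd a e, by omega, a, absurd a1 hu.2, absurd a1 hv.2]
    refine ⟨_, fun u hu => ?_, c, s3⟩
    obtain ⟨v, hv, e⟩ := exists_mem_ne (s := range m \ X) (by omega) u
    exact (ent_lt hM (s3 u hu v hv e.symm)).1

theorem result : CoNPHard (Lang Unimod) := (Hard.of_clique red_pt correct).coNPHard

end Pool.Agent.Results.MP_148663_lc.CoNPHard
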